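import Pool.Agent.T2h88.GP.Top

set_option autoImplicit false

/-! # Every congruent number is a difference of squarefree congruent numbers, in all compatible classes

Let `h` be a congruent number (squarefree or not), let `M ≥ 1`, and let `k` be odd and such that `k` and `k + h` are
squarefree. Then at least `c X ^ (1/4)` odd integers `n ≤ X`, `n ≡ k (mod M)`, are such that `n` and `n + h` are both
squarefree congruent numbers. The condition on the class is necessary up to the choice of `k` in it.

Examples. `h = 24`: for infinitely many `n` the numbers `n` and `n + 24` are both squarefree congruent numbers in the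
class `1` modulo `8`, and for infinitely many `n` they are both in the class `3`. `h = 6`: infinitely many pairs
`n ≡ 3`, `n + 6 ≡ 1` modulo `8`. In these classes (sign `+1` of the functional equation) the condition
`2 |A_n| = |B_n|` of the problem is a real condition.

Proof (`Pool.Agent.T2h88.GP`; parts by helpers 7, 16, 48, 53, 58). Let `h = m² h₀` with `h₀` squarefree. A right triangle
with area `h₀` gives a point on the curve `A² = C² - h₀ D²`, `B² = C² + h₀ D²`. Among the points obtained from it by
repeated duplication two are congruent modulo `2 m M`, and their difference is a point with `2 m M ∣ D`. With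
`q = 2 C D / m` we have `B⁴ = A⁴ + h q²`. So `n = (s⁴ - B⁴) / q²` and `n + h = (s⁴ - A⁴) / q²` are congruent numbers
whenever they are positive integers, and since `4 M ∣ q` every compatible class modulo `M` can be prescribed for `n`
by the choice of `s` modulo a power of `q`. It remains to find `s` for which both numbers are squarefree. The squares of
large primes `p` dividing `s² + A²` or `s² + B²` are removed by an argument of Estermann's type: for every `m ≥ 1` the
equation `s² + j² = m p²` has at most `3 j³ + 1` solutions `s` in `(S, 2 S]`. -/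

namespace Pool.Agent.Results.MP_05dcdc_nt.EveryCongruentDifference

/-- `n` is the area of a right triangle with rational sides -/
def IsCongruent (n : ℕ) : Prop :=
  ∃ a b c : ℚ, 0 < a ∧ 0 < b ∧ 0 < c ∧ a ^ 2 + b ^ 2 = c ^ 2 ∧ (n : ℚ) = a * b / 2

/-- Let `h` be a congruent number, let `k` be odd and let `k` and `k + h` be squarefree. At least `c X ^ (1/4)` odd
integers `n ≤ X` in the residue class of `k` modulo `M` are such that `n` and `n + h` are squarefree congruent numbers. -/
theorem result (h : ℕ) (hh : IsCongruent h) (M : ℕ) (hM : 0 < M) (k : ℕ) (hk : Odd k)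
    (hk1 : Squarefree k) (hk2 : Squarefree (k + h)) :
    ∃ c : ℝ, 0 < c ∧ ∃ X₀ : ℕ, ∀ X : ℕ, X₀ ≤ X → c * (X : ℝ) ^ (1 / 4 : ℝ) ≤
      (({n : ℕ | n ≤ X ∧ n ≡ k [MOD M] ∧ Odd n ∧ Squarefree n ∧ Squarefree (n + h) ∧
        IsCongruent n ∧ IsCongruent (n + h)}.ncard : ℕ) : ℝ) := by
  have hh0 : 0 < h := by
    obtain ⟨a, b, c, ha, hb, -, -, he⟩ := hh
    have : (0 : ℚ) < h := by
      rw [he]
      positivity
    exact_mod_cast this
  obtain ⟨c, hc, X₀, hX⟩ := Pool.Agent.T2h88.GP.main h (2 * M) k hh0 (by positivity) hh hk1 hk2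
  refine ⟨c, hc, X₀, fun X hX0 => (hX X hX0).trans ?_⟩
  have hfin : {n : ℕ | n ≤ X ∧ n ≡ k [MOD M] ∧ Odd n ∧ Squarefree n ∧ Squarefree (n + h) ∧
      IsCongruent n ∧ IsCongruent (n + h)}.Finite :=
    (Set.finite_Iic X).subset fun n hn => hn.1
  have hsub : {n : ℕ | n ≤ X ∧ n ≡ k [MOD 2 * M] ∧ Squarefree n ∧ Squarefree (n + h) ∧
        Pool.Agent.T2h88.GP.IsCongruent n ∧ Pool.Agent.T2h88.GP.IsCongruent (n + h)} ⊆
      {n : ℕ | n ≤ X ∧ n ≡ k [MOD M] ∧ Odd n ∧ Squarefree n ∧ Squarefree (n + h) ∧
        IsCongruent n ∧ IsCongruent (n + h)} := by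
    rintro n ⟨a1, a2, a3, a4, a5, a6⟩
    refine ⟨a1, a2.of_dvd (Dvd.intro_left 2 rfl), ?_, a3, a4, a5, a6⟩
    have h6 : n ≡ k [MOD 2] := a2.of_dvd (Dvd.intro M rfl)
    rw [Nat.odd_iff] at hk ⊢
    unfold Nat.ModEq at h6
    omega
  exact_mod_cast Set.ncard_le_ncard hsub hfin

end Pool.Agent.Results.MP_05dcdc_nt.EveryCongruentDifference
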