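import Pool.Agent.T2h88.GP.Top2

set_option autoImplicit false

/-! # Odd congruent numbers in all residue classes, uniformly for the moduli `M ≤ X ^ (1/6 - ε)`

For every `ε > 0` there are `c > 0` and `X₀` such that for all `X ≥ X₀` and all moduli `M ≤ X ^ (1/6 - ε)` EVERY residue
class modulo `M` which contains an odd squarefree number contains at least `c X ^ (1/2 - ε) / M ^ 2` odd squarefree
congruent numbers `n ≤ X`. So the least odd squarefree congruent number in such a class is at most `C M ^ (6 + ε)`, a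
theorem of Linnik's type. If `8 ∣ M` the classes `1` and `3` modulo `8` are included (sign `+1` of the functional
equation), in which the condition `2 |A_n| = |B_n|` of the problem is a real condition. The starting file
`OddResidueClasses` has all classes for `M ≤ X ^ (1/336)` (in short intervals).

Proof (`Pool.Agent.T2h88.GP`, `Stm2` and the files imported by `Top2`; parts by helpers 26, 49, 64, 67, 71, 94). The numbers are
`n = u v (u² - q⁴ v²)`, `q` the product of the primes up to `1000`. For a class `k` prime to `q` there are `u`, `v` with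
`n ≡ k` modulo every prime `p ≥ 53`: the character sums of order four of `t³ - t` are at most `2 √p`, by a second moment; for
the primes dividing `q k` one solves `v - q⁴ v³ ≡ k` by iteration. Then `u`, `v` run through classes modulo a slightly
larger modulus `M' ≤ C M ^ (1 + ε)`, up to `M' Y` with `Y ≥ M' ^ (1/2 + ε)`. The squares of large primes dividing one of the four
linear factors are removed by Prachar's argument for squarefree numbers in progressions. -/

namespace Pool.Agent.Results.MP_05dcdc_nt.LinnikType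

/-- `n` is the area of a right triangle with rational sides -/
def IsCongruent (n : ℕ) : Prop :=
  ∃ a b c : ℚ, 0 < a ∧ 0 < b ∧ 0 < c ∧ a ^ 2 + b ^ 2 = c ^ 2 ∧ (n : ℚ) = a * b / 2

/-- For `X ≥ X₀(ε)` and all `M ≤ X ^ (1/6 - ε)` every residue class modulo `M` which contains an odd squarefree number
contains at least `c X ^ (1/2 - ε) / M ^ 2` odd squarefree congruent numbers `n ≤ X`. -/
theorem result (ε : ℝ) (hε : 0 < ε) :
    ∃ c : ℝ, 0 < c ∧ ∃ X₀ : ℕ, ∀ X M : ℕ, X₀ ≤ X → 0 < M → (M : ℝ) ≤ (X : ℝ) ^ (1 / 6 - ε) →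
      ∀ a : ℕ, (∃ k : ℕ, Squarefree k ∧ Odd k ∧ k ≡ a [MOD M]) →
        c * (X : ℝ) ^ (1 / 2 - ε) / (M : ℝ) ^ 2 ≤
          (({n : ℕ | n ≤ X ∧ n ≡ a [MOD M] ∧ Odd n ∧ Squarefree n ∧ IsCongruent n}.ncard : ℕ) : ℝ) := by
  obtain ⟨c, hc, X₀, h⟩ := Pool.Agent.T2h88.GP.main2 ε hε
  refine ⟨c, hc, X₀, fun X M hX hM hMX a => ?_⟩
  rintro ⟨k, hk, hko, hka⟩
  refine (h X M k hX hM hMX hko hk).trans ?_
  have hfin : {n : ℕ | n ≤ X ∧ n ≡ a [MOD M] ∧ Odd n ∧ Squarefree n ∧ IsCongruent n}.Finite :=
    (Set.finite_Iic X).subset fun n hn => hn.1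
  refine Nat.cast_le.2 (Set.ncard_le_ncard ?_ hfin)
  rintro n ⟨a1, a2, a3, a4, a5⟩
  exact ⟨a1, a2.trans hka, a3, a4, a5⟩

end Pool.Agent.Results.MP_05dcdc_nt.LinnikType
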